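import Pool.Agent.Helper6.NX.GoalsE

set_option autoImplicit false
set_option linter.unusedVariables false

namespace Pool.Agent.Helper34.NX

open Matrix Equiv Filter Topology Pool.Agent.Helper15.An Pool.Agent.Helper6.NX
open scoped ComplexOrder

variable {n : ℕ}

theorem into_step (S : Finset (Fin n)) (r : ℕ) (hr : r < n) :
    (intoS S (r + 1)).card * (n - r) ≤ (intoS S r).card * (S.card - r) := by
  classical
  have h7 : (Finset.univ.filter fun j : Fin n => r ≤ j.val).card = n - r := by
    have : (Finset.univ.filter fun j : Fin n => r ≤ j.val) = Finset.Ici (⟨r, hr⟩ : Fin n) := by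
      ext j
      simp [Fin.le_def]
    rw [this, Fin.card_Ici]
  have h6 : (Finset.univ.filter fun j : Fin n => j.val < r).card = r := by
    have : (Finset.univ.filter fun j : Fin n => j.val < r) = Finset.Iio (⟨r, hr⟩ : Fin n) := by
      ext j
      simp [Fin.lt_def]
    rw [this, Fin.card_Iio]
  set P := (intoS S r ×ˢ (Finset.univ.filter fun j : Fin n => r ≤ j.val)).filter
    (fun p => p.1 p.2 ∈ S) with hP
  have h1 : P.card ≤ (intoS S r).card * (S.card - r) := by
    have h2 : P.card = ∑ x ∈ intoS S r,
        ((Finset.univ.filter fun j : Fin n => r ≤ j.val).filter (fun j => x j ∈ S)).card := by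
      rw [hP, Finset.card_filter, Finset.sum_product]
      refine Finset.sum_congr rfl fun x _ => ?_
      rw [Finset.card_filter]
    rw [h2, ← smul_eq_mul, ← Finset.sum_const]
    refine Finset.sum_le_sum fun x hx => ?_
    have hx' : ∀ j : Fin n, j.val < r → x j ∈ S := by
      simpa [intoS] using hx
    have h3 : (Finset.univ.filter (fun j : Fin n => x j ∈ S)).card = S.card := by
      have : Finset.univ.filter (fun j : Fin n => x j ∈ S) = S.map (x⁻¹ : Perm (Fin n)).toEmbedding := by
        ext j
        simp only [Finset.mem_filter, Finset.mem_univ, true_and, Finset.mem_map_equiv]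
        rfl
      rw [this, Finset.card_map]
    have h4 : ((Finset.univ.filter fun j : Fin n => r ≤ j.val).filter (fun j => x j ∈ S)) =
        (Finset.univ.filter (fun j : Fin n => x j ∈ S)) \
        (Finset.univ.filter fun j : Fin n => j.val < r) := by
      ext j
      simp only [Finset.mem_filter, Finset.mem_univ, true_and, Finset.mem_sdiff, not_lt]
      exact and_comm
    rw [h4, Finset.card_sdiff_of_subset, h3, h6]
    intro j hj
    simp only [Finset.mem_filter, Finset.mem_univ, true_and] at hj ⊢
    exact hx' j hj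
  refine le_trans ?_ h1
  rw [← h7, ← Finset.card_product]
  refine Finset.card_le_card_of_injOn (fun p => (p.1 * swap ⟨r, hr⟩ p.2, p.2)) ?_ ?_
  · rintro ⟨y, j⟩ hp
    simp only [intoS, Finset.coe_product, Finset.coe_filter, Finset.mem_univ, true_and,
      Set.mem_prod, Set.mem_ofPred_eq] at hp
    simp only [hP, intoS, Finset.coe_filter, Finset.mem_product, Finset.mem_filter,
      Finset.mem_univ, true_and, Set.mem_ofPred_eq]
    refine ⟨⟨fun i hi => ?_, hp.2⟩, ?_⟩
    · rw [Perm.mul_apply, swap_apply_of_ne_of_ne]
      · exact hp.1 i (by omega)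
      · intro h'; rw [h'] at hi; exact lt_irrefl _ hi
      · intro h'; rw [h'] at hi; exact absurd hp.2 (not_le.2 hi)
    · rw [Perm.mul_apply, swap_apply_right]
      exact hp.1 ⟨r, hr⟩ (Nat.lt_succ_self r)
  · rintro ⟨x, j⟩ _ ⟨y, i⟩ _ h
    simp only [Prod.mk.injEq] at h
    obtain ⟨h9, h10⟩ := h
    subst h10
    rw [mul_left_inj] at h9
    rw [h9]

theorem into_le (S : Finset (Fin n)) : ∀ f : ℕ, f ≤ n →
    (intoS S f).card ≤ S.card.descFactorial f * (n - f).factorial := by
  intro f
  induction f with
  | zero => intro _; simp [intoS_zero]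
  | succ f ih =>
    intro hf
    have h1 := ih (by omega)
    have h2 := into_step S f (by omega)
    have h3 : (n - f).factorial = (n - f) * (n - (f + 1)).factorial := by
      have : n - f = (n - (f + 1)) + 1 := by omega
      conv_lhs => rw [this, Nat.factorial_succ, ← this]
    have h4 : (intoS S (f + 1)).card * (n - f) ≤
        (S.card.descFactorial (f + 1) * (n - (f + 1)).factorial) * (n - f) := by
      refine h2.trans ?_
      calc (intoS S f).card * (S.card - f)
          ≤ (S.card.descFactorial f * (n - f).factorial) * (S.card - f) :=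
            Nat.mul_le_mul_right _ h1
        _ = (S.card.descFactorial (f + 1) * (n - (f + 1)).factorial) * (n - f) := by
            rw [h3, Nat.descFactorial_succ]
            ring
    exact Nat.le_of_mul_le_mul_right h4 (by omega)

theorem fixI_step (r : ℕ) (hr : r < n) : (fixI n r).card ≤ (fixI n (r + 1)).card * (n - r) := by
  classical
  have h7 : (Finset.univ.filter fun j : Fin n => r ≤ j.val).card = n - r := by
    have : (Finset.univ.filter fun j : Fin n => r ≤ j.val) = Finset.Ici (⟨r, hr⟩ : Fin n) := by
      ext j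
      simp [Fin.le_def]
    rw [this, Fin.card_Ici]
  rw [← h7, ← Finset.card_product]
  refine Finset.card_le_card_of_injOn
    (fun x => (swap ⟨r, hr⟩ (x ⟨r, hr⟩) * x, x ⟨r, hr⟩)) ?_ ?_
  · intro x hx
    simp only [fixI, Finset.coe_filter, Finset.mem_univ, true_and, Set.mem_ofPred_eq] at hx
    have hge : r ≤ (x ⟨r, hr⟩).val := by
      by_contra hlt
      rw [not_le] at hlt
      have h1 := hx (x ⟨r, hr⟩) hlt
      have h2 := x.injective h1
      rw [h2] at hlt
      exact lt_irrefl _ hlt
    simp only [fixI, Finset.coe_product, Finset.coe_filter, Finset.mem_univ, true_and,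
      Set.mem_prod, Set.mem_ofPred_eq]
    refine ⟨fun i hi => ?_, hge⟩
    rw [Perm.mul_apply]
    rcases Nat.lt_succ_iff_lt_or_eq.1 hi with h | h
    · rw [hx i h, swap_apply_of_ne_of_ne]
      · intro h'; rw [h'] at h; exact lt_irrefl _ h
      · intro h'; rw [← h'] at hge; exact absurd hge (not_le.2 h)
    · have : i = ⟨r, hr⟩ := Fin.ext h
      rw [this, swap_apply_right]
  · intro x _ y _ h
    simp only [Prod.mk.injEq] at h
    obtain ⟨h9, h10⟩ := h
    rw [h10] at h9
    exact mul_left_cancel h9

theorem le_fixI : ∀ f : ℕ, f ≤ n → n.factorial ≤ (fixI n f).card * n.descFactorial f := by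
  intro f
  induction f with
  | zero => intro _; simp [fixI_zero]
  | succ f ih =>
    intro hf
    refine (ih (by omega)).trans ?_
    calc (fixI n f).card * n.descFactorial f
        ≤ ((fixI n (f + 1)).card * (n - f)) * n.descFactorial f :=
          Nat.mul_le_mul_right _ (fixI_step f (by omega))
      _ = (fixI n (f + 1)).card * n.descFactorial (f + 1) := by
          rw [Nat.descFactorial_succ]
          ring

theorem fact_le_fixI (f : ℕ) (hf : f ≤ n) : (n - f).factorial ≤ (fixI n f).card := by
  have h1 := le_fixI f hf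
  rw [← Nat.factorial_mul_descFactorial hf] at h1
  exact Nat.le_of_mul_le_mul_right h1 (Nat.pos_of_ne_zero (by
    rw [Ne, Nat.descFactorial_eq_zero_iff_lt]
    omega))

theorem hLR {G : Type} [Group G] [Fintype G] [DecidableEq G] (F : PW G) (H : Subgroup G)
    [Fintype H] (κ : G → ℝ) :
    ∑ g, κ g * (∑ h : H, ((Finset.univ.filter (fun x : G => g * x * (h : G) = x)).card : ℝ)) =
      ∑ i, (trace (wop (F.ρ i) κ)).re * (trace (psum (F.ρ i) H)).re := by
  have hLC : ((∑ g, κ g * (∑ h : H,
      ((Finset.univ.filter (fun x : G => g * x * (h : G) = x)).card : ℝ)) : ℝ) : ℂ) =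
      ∑ i, trace (wop (F.ρ i) κ) * (((trace (psum (F.ρ i) H)).re : ℝ) : ℂ) := by
    push_cast
    simp_rw [trace_psum_real F, ← F.col]
    have h3 : ∀ i, trace (wop (F.ρ i) κ) * trace (psum (F.ρ i) H) =
        ∑ g, ∑ h : H, (κ g : ℂ) * (trace (F.ρ i g) * trace (F.ρ i (h : G))) := by
      intro i
      unfold wop psum
      rw [trace_sum, trace_sum, Finset.sum_mul]
      refine Finset.sum_congr rfl fun g _ => ?_
      rw [Finset.mul_sum]
      refine Finset.sum_congr rfl fun h _ => ?_
      rw [trace_smul, Complex.real_smul]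
      ring
    simp_rw [h3]
    rw [Finset.sum_comm]
    refine Finset.sum_congr rfl fun g _ => ?_
    rw [Finset.sum_comm, Finset.mul_sum]
    refine Finset.sum_congr rfl fun h _ => ?_
    rw [Finset.mul_sum]
  have := congrArg Complex.re hLC
  rw [Complex.ofReal_re, Complex.re_sum] at this
  rw [this]
  refine Finset.sum_congr rfl fun i _ => ?_
  rw [Complex.re_mul_ofReal]

theorem sum_le_mom (F : PW (Perm (Fin n))) (κ : Perm (Fin n) → ℝ) (hκ : ∀ g, 0 ≤ κ g)
    (hA : ∀ g, g ∉ Alt n → κ g = 0) (f : ℕ) (hf : f ≤ n) :
    ∑ i, (trace (wop (F.ρ i) κ)).re * (trace (psum (F.ρ i) (stab n f))).re ≤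
      (n - f).factorial * mom κ f := by
  classical
  rw [← hLR F (stab n f) κ]
  unfold mom
  rw [Finset.mul_sum]
  refine Finset.sum_le_sum fun g _ => ?_
  by_cases hg : g ∈ Alt n
  · have hs : Perm.sign g = 1 := by
      rw [← Equiv.Perm.mem_alternatingGroup]
      exact hg
    rw [sum_stab_eq f g hs]
    have h1 := into_le (Finset.univ.filter fun x : Fin n => g x = x) f hf
    have h2 : ((intoS (Finset.univ.filter fun x : Fin n => g x = x) f).card : ℝ) ≤
        ((fixc g).descFactorial f : ℝ) * (n - f).factorial := by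
      have h3 : ((intoS (Finset.univ.filter fun x : Fin n => g x = x) f).card : ℝ) ≤
        (((Finset.univ.filter fun x : Fin n => g x = x).card.descFactorial f *
          (n - f).factorial : ℕ) : ℝ) := by exact_mod_cast h1
      rw [Nat.cast_mul] at h3
      exact h3
    calc κ g * ((intoS (Finset.univ.filter fun x : Fin n => g x = x) f).card : ℝ)
        ≤ κ g * (((fixc g).descFactorial f : ℝ) * (n - f).factorial) :=
          mul_le_mul_of_nonneg_left h2 (hκ g)
      _ = (n - f).factorial * (κ g * ((fixc g).descFactorial f : ℝ)) := by ring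
  · rw [hA g hg]
    simp

theorem thmF1 : S_F1 := by
  classical
  intro n F κ hκ hA hpos
  have key : ∀ f ≤ n, ∀ i, (trace (wop (F.ρ i) κ)).re *
      (trace (psum (F.ρ i) (stab n f))).re ≤ (n - f).factorial * mom κ f := by
    intro f hf i
    refine le_trans ?_ (sum_le_mom F κ hκ.1 hA f hf)
    exact Finset.single_le_sum (f := fun i => (trace (wop (F.ρ i) κ)).re *
      (trace (psum (F.ρ i) (stab n f))).re)
      (fun j _ => mul_nonneg (hpos j) (trace_psum_nonneg (F.ρ j) (stab n f) (F.irr j).unit))
      (Finset.mem_univ i)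
  refine ⟨?_, ?_⟩
  · intro f hf i hfix
    have h1 := key f hf i
    have h2 := le_trace_psum (F.ρ i) (stab n f) (F.irr i).unit hfix
    have h3 : ((n - f).factorial : ℝ) ≤ 2 * (Fintype.card (stab n f) : ℝ) := by
      have := (fact_le_fixI f hf).trans (fixI_le_card_stab f)
      exact_mod_cast this
    have hfpos : (0 : ℝ) < (n - f).factorial := by exact_mod_cast Nat.factorial_pos _
    have h4 : (trace (wop (F.ρ i) κ)).re * ((n - f).factorial / 2) ≤
        (n - f).factorial * mom κ f := by
      refine le_trans (mul_le_mul_of_nonneg_left ?_ (hpos i)) h1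
      linarith
    have h5 : (n - f).factorial * ((trace (wop (F.ρ i) κ)).re) ≤
        (n - f).factorial * (2 * mom κ f) := by
      nlinarith
    exact le_of_mul_le_mul_left h5 hfpos
  · intro i
    have h1 := key n le_rfl i
    have htriv : ∀ a : stab n n, F.ρ i (a : Perm (Fin n)) = 1 := by
      rintro ⟨a, ha⟩
      have : a = 1 := by
        ext j
        rw [(mem_stab.1 ha).2 j j.2]
        rfl
      change F.ρ i a = 1
      rw [this, map_one]
    have h2 : psum (F.ρ i) (stab n n) =
        (Fintype.card (stab n n) : ℝ) • (1 : Matrix (Fin (F.D i)) (Fin (F.D i)) ℂ) := by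
      unfold psum
      rw [Finset.sum_congr rfl fun a _ => htriv a, Finset.sum_const, Finset.card_univ]
      ext a b
      simp
    have h3 : (F.D i : ℝ) ≤ (trace (psum (F.ρ i) (stab n n))).re := by
      rw [h2, trace_smul, trace_one]
      have h4 : (1 : ℝ) ≤ Fintype.card (stab n n) := by exact_mod_cast Fintype.card_pos
      simp
      nlinarith [Nat.cast_nonneg (α := ℝ) (F.D i)]
    rw [Nat.sub_self, Nat.factorial_zero, Nat.cast_one, one_mul] at h1
    refine le_trans ?_ h1
    rw [mul_comm]
    exact mul_le_mul_of_nonneg_left h3 (hpos i)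

end Pool.Agent.Helper34.NX
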